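import Mathlib

/-!
# Perturbed sets with many representations: combinatorics

Every set `S` of natural numbers up to `N` with `|S| (|S| - 1) > 8 k ^ 2 (2 N / l + 1)` contains `k`
disjoint pairs whose sums are in one interval of length `2 l`.
-/

set_option autoImplicit false

namespace Pool.Agent.P8H47.SM

/-- the number of ordered pairs of elements of `B` with sum `n` -/
noncomputable def rep (B : Set ℕ) (n : ℕ) : ℕ :=
  {p : ℕ × ℕ | p.1 ∈ B ∧ p.2 ∈ B ∧ p.1 + p.2 = n}.ncard

lemma rep_finite (B : Set ℕ) (n : ℕ) : {p : ℕ × ℕ | p.1 ∈ B ∧ p.2 ∈ B ∧ p.1 + p.2 = n}.Finite := by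
  refine (Finset.range (n + 1) ×ˢ Finset.range (n + 1)).finite_toSet.subset fun p hp => ?_
  have h := hp.2.2
  simp only [Finset.coe_product, Set.mem_prod, Finset.mem_coe, Finset.mem_range]
  omega

lemma rep_mono {B B' : Set ℕ} (h : B ⊆ B') (n : ℕ) : rep B n ≤ rep B' n :=
  Set.ncard_le_ncard (fun _ hp => ⟨h hp.1, h hp.2.1, hp.2.2⟩) (rep_finite B' n)

/-- pairwise disjoint pairs of different elements of `S` -/
def Mat (S : Finset ℕ) (M : Finset (ℕ × ℕ)) : Prop :=
  (∀ p ∈ M, p.1 ∈ S ∧ p.2 ∈ S ∧ p.1 ≠ p.2) ∧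
    ∀ p ∈ M, ∀ q ∈ M, p ≠ q → p.1 ≠ q.1 ∧ p.1 ≠ q.2 ∧ p.2 ≠ q.1 ∧ p.2 ≠ q.2

lemma mat_insert {S : Finset ℕ} {M : Finset (ℕ × ℕ)} {u v : ℕ} (hu : u ∈ S) (hv : v ∈ S)
    (huv : u ≠ v) (h : Mat ((S.erase u).erase v) M) :
    Mat S (insert (u, v) M) ∧ (u, v) ∉ M := by
  obtain ⟨h1, h2⟩ := h
  have hM : ∀ p ∈ M, p.1 ∈ S ∧ p.2 ∈ S ∧ p.1 ≠ p.2 ∧ p.1 ≠ u ∧ p.1 ≠ v ∧ p.2 ≠ u ∧ p.2 ≠ v := by
    intro p hp
    have := h1 p hp
    simp only [Finset.mem_erase] at this
    exact ⟨this.1.2.2, this.2.1.2.2, this.2.2, this.1.2.1, this.1.1, this.2.1.2.1, this.2.1.1⟩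
  refine ⟨⟨?_, ?_⟩, fun h => (hM _ h).2.2.2.1 rfl⟩
  · intro p hp
    rcases Finset.mem_insert.1 hp with rfl | hp
    · exact ⟨hu, hv, huv⟩
    · exact ⟨(hM p hp).1, (hM p hp).2.1, (hM p hp).2.2.1⟩
  · intro p hp q hq hpq
    rcases Finset.mem_insert.1 hp with rfl | hp'
    · rcases Finset.mem_insert.1 hq with rfl | hq'
      · exact absurd rfl hpq
      · have := hM q hq'
        exact ⟨this.2.2.2.1.symm, this.2.2.2.2.2.1.symm, this.2.2.2.2.1.symm, this.2.2.2.2.2.2.symm⟩
    · rcases Finset.mem_insert.1 hq with rfl | hq'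
      · have := hM p hp'
        exact ⟨this.2.2.2.1, this.2.2.2.2.1, this.2.2.2.2.2.1, this.2.2.2.2.2.2⟩
      · exact h2 p hp' q hq' hpq

/-- `2 k` elements give `k` disjoint pairs -/
lemma mat_of_card (k : ℕ) : ∀ S : Finset ℕ, 2 * k ≤ S.card → ∃ M, Mat S M ∧ M.card = k := by
  induction k with
  | zero =>
    intro S _
    exact ⟨∅, ⟨by simp, by simp⟩, rfl⟩
  | succ k ih =>
    intro S hS
    obtain ⟨u, hu, v, hv, huv⟩ := Finset.one_lt_card.1 (by omega : 1 < S.card)
    have hc : 2 * k ≤ ((S.erase u).erase v).card := by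
      rw [Finset.card_erase_of_mem (Finset.mem_erase.2 ⟨huv.symm, hv⟩), Finset.card_erase_of_mem hu]
      omega
    obtain ⟨M, hM, hk⟩ := ih _ hc
    obtain ⟨h1, h2⟩ := mat_insert hu hv huv hM
    exact ⟨_, h1, by rw [Finset.card_insert_of_notMem h2, hk]⟩

/-- the ordered pairs of different elements whose cells have the sum `s` -/
def EE (l : ℕ) (S : Finset ℕ) (s : ℕ) : Finset (ℕ × ℕ) :=
  (S ×ˢ S).filter fun p => p.1 ≠ p.2 ∧ p.1 / l + p.2 / l = s

lemma mem_EE {l : ℕ} {S : Finset ℕ} {s : ℕ} {p : ℕ × ℕ} :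
    p ∈ EE l S s ↔ (p.1 ∈ S ∧ p.2 ∈ S) ∧ p.1 ≠ p.2 ∧ p.1 / l + p.2 / l = s := by
  simp [EE]

lemma sub_eq_of {a b s c : ℕ} (h : a + b = s) (e : a = c) : s - c = b := by omega

lemma EE_erase {l c : ℕ} {S : Finset ℕ} (hc : ∀ t, (S.filter fun a => a / l = t).card ≤ c)
    (s u v : ℕ) : (EE l S s).card ≤ (EE l ((S.erase u).erase v) s).card + 4 * c := by
  classical
  have hsub : EE l S s ⊆ EE l ((S.erase u).erase v) s ∪
      (((S.filter fun a => a / l = s - u / l).image fun a => (u, a)) ∪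
      ((S.filter fun a => a / l = s - u / l).image fun a => (a, u)) ∪
      (((S.filter fun a => a / l = s - v / l).image fun a => (v, a)) ∪
      ((S.filter fun a => a / l = s - v / l).image fun a => (a, v)))) := by
    intro p hp
    rw [mem_EE] at hp
    obtain ⟨⟨h1, h2⟩, h3, h4⟩ := hp
    by_cases a1 : p.1 = u
    · refine Finset.mem_union_right _ (Finset.mem_union_left _ (Finset.mem_union_left _ ?_))
      refine Finset.mem_image.2 ⟨p.2, Finset.mem_filter.2 ⟨h2, ?_⟩, by rw [← a1]⟩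
      have e : p.1 / l = u / l := by rw [a1]
      exact (sub_eq_of h4 e).symm
    by_cases a2 : p.2 = u
    · refine Finset.mem_union_right _ (Finset.mem_union_left _ (Finset.mem_union_right _ ?_))
      refine Finset.mem_image.2 ⟨p.1, Finset.mem_filter.2 ⟨h1, ?_⟩, by rw [← a2]⟩
      have e : p.2 / l = u / l := by rw [a2]
      exact (sub_eq_of ((add_comm _ _).trans h4) e).symm
    by_cases a3 : p.1 = v
    · refine Finset.mem_union_right _ (Finset.mem_union_right _ (Finset.mem_union_left _ ?_))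
      refine Finset.mem_image.2 ⟨p.2, Finset.mem_filter.2 ⟨h2, ?_⟩, by rw [← a3]⟩
      have e : p.1 / l = v / l := by rw [a3]
      exact (sub_eq_of h4 e).symm
    by_cases a4 : p.2 = v
    · refine Finset.mem_union_right _ (Finset.mem_union_right _ (Finset.mem_union_right _ ?_))
      refine Finset.mem_image.2 ⟨p.1, Finset.mem_filter.2 ⟨h1, ?_⟩, by rw [← a4]⟩
      have e : p.2 / l = v / l := by rw [a4]
      exact (sub_eq_of ((add_comm _ _).trans h4) e).symm
    · refine Finset.mem_union_left _ (mem_EE.2 ⟨⟨?_, ?_⟩, h3, h4⟩)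
      · simp [a1, a3, h1]
      · simp [a2, a4, h2]
  have hA : ∀ t : ℕ, ∀ f : ℕ → ℕ × ℕ, ((S.filter fun a => a / l = t).image f).card ≤ c :=
    fun t f => Finset.card_image_le.trans (hc t)
  refine (Finset.card_le_card hsub).trans ((Finset.card_union_le _ _).trans ?_)
  have h1 := Finset.card_union_le ((S.filter fun a => a / l = s - u / l).image fun a => (u, a))
    ((S.filter fun a => a / l = s - u / l).image fun a => (a, u))
  have h2 := Finset.card_union_le ((S.filter fun a => a / l = s - v / l).image fun a => (v, a))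
    ((S.filter fun a => a / l = s - v / l).image fun a => (a, v))
  have h3 := Finset.card_union_le (((S.filter fun a => a / l = s - u / l).image fun a => (u, a)) ∪
      ((S.filter fun a => a / l = s - u / l).image fun a => (a, u)))
      (((S.filter fun a => a / l = s - v / l).image fun a => (v, a)) ∪
      ((S.filter fun a => a / l = s - v / l).image fun a => (a, v)))
  have h4 := hA (s - u / l) (fun a => (u, a))
  have h5 := hA (s - u / l) (fun a => (a, u))
  have h6 := hA (s - v / l) (fun a => (v, a))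
  have h7 := hA (s - v / l) (fun a => (a, v))
  omega

/-- many pairs with the same sum of cells give many disjoint ones -/
lemma mat_of_EE {l c : ℕ} (k : ℕ) : ∀ (S : Finset ℕ) (s : ℕ),
    (∀ t, (S.filter fun a => a / l = t).card ≤ c) → 4 * c * k < (EE l S s).card →
    ∃ M, Mat S M ∧ M.card = k + 1 ∧ ∀ p ∈ M, p.1 / l + p.2 / l = s := by
  induction k with
  | zero =>
    intro S s _ h
    rw [mul_zero] at h
    obtain ⟨p, hp⟩ := Finset.card_pos.1 h
    rw [mem_EE] at hp
    refine ⟨{p}, ⟨?_, ?_⟩, rfl, ?_⟩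
    · intro q hq
      rw [Finset.mem_singleton.1 hq]
      exact ⟨hp.1.1, hp.1.2, hp.2.1⟩
    · intro q hq r hr hqr
      rw [Finset.mem_singleton.1 hq, Finset.mem_singleton.1 hr] at hqr
      exact absurd rfl hqr
    · intro q hq
      rw [Finset.mem_singleton.1 hq]
      exact hp.2.2
  | succ k ih =>
    intro S s hc h
    obtain ⟨p, hp⟩ := Finset.card_pos.1 (lt_of_le_of_lt (Nat.zero_le _) h)
    rw [mem_EE] at hp
    obtain ⟨⟨h1, h2⟩, h3, h4⟩ := hp
    have h5 := EE_erase hc s p.1 p.2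
    obtain ⟨M, hM, hk, hs⟩ := ih ((S.erase p.1).erase p.2) s (fun t => by
      refine le_trans (Finset.card_le_card ?_) (hc t)
      exact Finset.filter_subset_filter _ ((Finset.erase_subset _ _).trans (Finset.erase_subset _ _)))
      (by
        have e : 4 * c * (k + 1) = 4 * c * k + 4 * c := by ring
        omega)
    obtain ⟨g1, g2⟩ := mat_insert h1 h2 h3 hM
    refine ⟨_, g1, by rw [Finset.card_insert_of_notMem g2, hk], ?_⟩
    intro q hq
    rcases Finset.mem_insert.1 hq with rfl | hq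
    · exact h4
    · exact hs q hq

/-- `k` disjoint pairs whose sums are in an interval of length `2 l` -/
lemma exists_mat {N l k : ℕ} (hk : 1 ≤ k) (S : Finset ℕ) (hS : ∀ a ∈ S, a ≤ N)
    (h : 8 * k ^ 2 * (2 * (N / l) + 1) < S.card * (S.card - 1)) :
    ∃ (M : Finset (ℕ × ℕ)) (s : ℕ), Mat S M ∧ M.card = k ∧ ∀ p ∈ M, p.1 / l + p.2 / l = s := by
  classical
  by_cases hc : ∃ t, 2 * k ≤ (S.filter fun a => a / l = t).card
  · obtain ⟨t, ht⟩ := hc
    obtain ⟨M, hM, hMk⟩ := mat_of_card k _ ht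
    refine ⟨M, t + t, ⟨?_, hM.2⟩, hMk, ?_⟩
    · intro p hp
      have := hM.1 p hp
      simp only [Finset.mem_filter] at this
      exact ⟨this.1.1, this.2.1.1, this.2.2⟩
    · intro p hp
      have := hM.1 p hp
      simp only [Finset.mem_filter] at this
      rw [this.1.2, this.2.1.2]
  · push Not at hc
    set D : Finset (ℕ × ℕ) := (S ×ˢ S).filter fun p => p.1 ≠ p.2 with hD
    have hDc : D.card = S.card * (S.card - 1) := by
      have e : D = S.offDiag := by
        ext p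
        simp [hD, Finset.mem_offDiag, and_assoc]
      rw [e, Finset.offDiag_card, Nat.mul_sub, mul_one]
    obtain ⟨s, -, hs⟩ := Finset.exists_lt_card_fiber_of_mul_lt_card_of_maps_to
      (s := D) (t := Finset.range (2 * (N / l) + 1)) (f := fun p : ℕ × ℕ => p.1 / l + p.2 / l)
      (n := 8 * k ^ 2) (by
        intro p hp
        simp only [hD, Finset.mem_filter, Finset.mem_product] at hp
        rw [Finset.mem_range]
        have h1 := Nat.div_le_div_right (c := l) (hS _ hp.1.1)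
        have h2 := Nat.div_le_div_right (c := l) (hS _ hp.1.2)
        omega) (by
        rw [Finset.card_range, hDc]
        linarith)
    have e : (D.filter fun p : ℕ × ℕ => p.1 / l + p.2 / l = s) = EE l S s := by
      ext p
      simp [hD, EE, and_assoc]
    rw [e] at hs
    obtain ⟨k', rfl⟩ : ∃ k', k = k' + 1 := ⟨k - 1, by omega⟩
    obtain ⟨M, hM, hMk, hMs⟩ := mat_of_EE (c := 2 * (k' + 1)) k' S s (fun t => (hc t).le) (by
      refine lt_of_le_of_lt ?_ hs
      nlinarith)
    exact ⟨M, s, hM, hMk, hMs⟩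

/-- moving the elements `a` of `H` to `T a` gives `k` representations -/
def Good (N k l : ℕ) (H : Finset ℕ) (T : ℕ → ℕ) : Prop :=
  H.card ≤ 2 * k ∧ (∀ a ∈ H, a ≤ T a ∧ T a ≤ a + 2 * l) ∧
    ∀ f : ℕ → ℕ, (∀ a ∈ H, f a = T a) → ∃ n ≤ 2 * N + 2 * l, k ≤ rep (f '' (H : Set ℕ)) n

lemma good_of_mat {N l k s : ℕ} (hl : 1 ≤ l) (hk1 : 1 ≤ k) {S : Finset ℕ}
    (hSN : ∀ a ∈ S, a ≤ N) {M : Finset (ℕ × ℕ)} (hM : Mat S M)
    (hk : M.card = k) (hs : ∀ p ∈ M, p.1 / l + p.2 / l = s) :
    ∃ (H : Finset ℕ) (T : ℕ → ℕ), H ⊆ S ∧ Good N k l H T := by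
  classical
  set H : Finset ℕ := M.image Prod.fst ∪ M.image Prod.snd with hH
  set n : ℕ := (s + 2) * l with hn
  have h7 : n = s * l + 2 * l := by rw [hn]; ring
  have hp1 : ∀ p ∈ M, s * l ≤ p.1 + p.2 ∧ p.1 + p.2 ≤ n := by
    intro p hp
    have h1 := hs p hp
    have h2 := Nat.div_add_mod p.1 l
    have h3 := Nat.div_add_mod p.2 l
    have h4 := Nat.mod_lt p.1 hl
    have h5 := Nat.mod_lt p.2 hl
    have h6 : s * l = l * (p.1 / l) + l * (p.2 / l) := by rw [← h1]; ring
    constructor <;> omega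
  set T : ℕ → ℕ := fun a => if h : ∃ p ∈ M, p.2 = a then n - h.choose.1 else a with hT
  have hT1 : ∀ p ∈ M, T p.1 = p.1 := by
    intro p hp
    simp only [hT]
    rw [dif_neg]
    rintro ⟨q, hq, hqp⟩
    by_cases hpq : p = q
    · subst hpq
      exact (hM.1 p hp).2.2 hqp.symm
    · exact (hM.2 p hp q hq hpq).2.1 hqp.symm
  have hT2 : ∀ p ∈ M, T p.2 = n - p.1 := by
    intro p hp
    have hex : ∃ q ∈ M, q.2 = p.2 := ⟨p, hp, rfl⟩
    simp only [hT]
    rw [dif_pos hex]
    have h1 := hex.choose_spec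
    have h2 : hex.choose = p := by
      by_contra hne
      exact (hM.2 _ h1.1 p hp hne).2.2.2 h1.2
    rw [h2]
  refine ⟨H, T, ?_, ?_, ?_, ?_⟩
  · intro a ha
    rcases Finset.mem_union.1 ha with h | h
    · obtain ⟨p, hp, rfl⟩ := Finset.mem_image.1 h
      exact (hM.1 p hp).1
    · obtain ⟨p, hp, rfl⟩ := Finset.mem_image.1 h
      exact (hM.1 p hp).2.1
  · refine (Finset.card_union_le _ _).trans ?_
    have h1 := Finset.card_image_le (s := M) (f := Prod.fst)
    have h2 := Finset.card_image_le (s := M) (f := Prod.snd)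
    omega
  · intro a ha
    rcases Finset.mem_union.1 ha with h | h
    · obtain ⟨p, hp, rfl⟩ := Finset.mem_image.1 h
      rw [hT1 p hp]
      exact ⟨le_rfl, Nat.le_add_right _ _⟩
    · obtain ⟨p, hp, rfl⟩ := Finset.mem_image.1 h
      rw [hT2 p hp]
      have h1 := hp1 p hp
      constructor <;> omega
  · intro f hf
    refine ⟨n, ?_, ?_⟩
    · obtain ⟨p, hp⟩ := Finset.card_pos.1 (by omega : 0 < M.card)
      have h1 := hp1 p hp
      have h2 := hSN _ (hM.1 p hp).1
      have h3 := hSN _ (hM.1 p hp).2.1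
      omega
    have hmem1 : ∀ p ∈ M, p.1 ∈ f '' (H : Set ℕ) := by
      intro p hp
      have h1 : p.1 ∈ H := Finset.mem_union_left _ (Finset.mem_image_of_mem _ hp)
      exact ⟨p.1, h1, by rw [hf _ h1, hT1 p hp]⟩
    have hmem2 : ∀ p ∈ M, n - p.1 ∈ f '' (H : Set ℕ) := by
      intro p hp
      have h1 : p.2 ∈ H := Finset.mem_union_right _ (Finset.mem_image_of_mem _ hp)
      exact ⟨p.2, h1, by rw [hf _ h1, hT2 p hp]⟩
    have hinj : Set.InjOn (fun p : ℕ × ℕ => (p.1, n - p.1)) M := by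
      intro p hp q hq h
      by_contra hne
      exact (hM.2 p hp q hq hne).1 (Prod.ext_iff.1 h).1
    have hcard : (M.image fun p : ℕ × ℕ => (p.1, n - p.1)).card = k := by
      rw [Finset.card_image_of_injOn hinj, hk]
    rw [← hcard, ← Set.ncard_coe_finset]
    refine Set.ncard_le_ncard ?_ (rep_finite _ n)
    intro q hq
    rw [Finset.mem_coe] at hq
    obtain ⟨p, hp, rfl⟩ := Finset.mem_image.1 hq
    refine ⟨hmem1 p hp, hmem2 p hp, ?_⟩
    have := hp1 p hp
    simp only
    omega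

/-- many disjoint groups -/
lemma exists_groups {N l k r : ℕ} (hk : 1 ≤ k) (hl : 1 ≤ l)
    (hr : 8 * k ^ 2 * (2 * (N / l) + 1) < r * (r - 1)) (M : ℕ) : ∀ S : Finset ℕ,
    (∀ a ∈ S, a ≤ N) → 2 * k * M + r ≤ S.card + 2 * k →
    ∃ G : ℕ → Finset ℕ × (ℕ → ℕ), (∀ i < M, ∀ j < M, i ≠ j → Disjoint (G i).1 (G j).1) ∧
      ∀ j < M, (G j).1 ⊆ S ∧ Good N k l (G j).1 (G j).2 := by
  classical
  induction M with
  | zero =>
    intro S _ _
    exact ⟨fun _ => (∅, fun _ => 0), by simp, by simp⟩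
  | succ M ih =>
    intro S hS hc
    have e : 2 * k * (M + 1) = 2 * k * M + 2 * k := by ring
    have hrS : r ≤ S.card := by omega
    obtain ⟨Mt, s, hM, hMk, hMs⟩ := exists_mat hk S hS (lt_of_lt_of_le hr
      (Nat.mul_le_mul hrS (by omega)))
    obtain ⟨H, T, hHS, hG⟩ := good_of_mat hl hk hS hM hMk hMs
    obtain ⟨G, hG1, hG2⟩ := ih (S \ H) (fun a ha => hS a (Finset.mem_sdiff.1 ha).1) (by
      rw [Finset.card_sdiff_of_subset hHS]
      have := hG.1
      have := Finset.card_le_card hHS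
      omega)
    refine ⟨fun j => if j < M then G j else (H, T), ?_, ?_⟩
    · intro i hi j hj hij
      by_cases h1 : i < M
      · by_cases h2 : j < M
        · simp only [if_pos h1, if_pos h2]
          exact hG1 i h1 j h2 hij
        · simp only [if_pos h1, if_neg h2]
          exact Finset.disjoint_of_subset_left (hG2 i h1).1 Finset.sdiff_disjoint
      · by_cases h2 : j < M
        · simp only [if_neg h1, if_pos h2]
          exact (Finset.disjoint_of_subset_left (hG2 j h2).1 Finset.sdiff_disjoint).symm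
        · omega
    · intro j hj
      by_cases h1 : j < M
      · simp only [if_pos h1]
        exact ⟨(hG2 j h1).1.trans Finset.sdiff_subset, (hG2 j h1).2⟩
      · simp only [if_neg h1]
        exact ⟨hHS, hG⟩

end Pool.Agent.P8H47.SM
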