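import Pool.Agent.P8H47.SM.Final

/-!
# Perturbed sets with many representations: existence of the random perturbations
-/

set_option autoImplicit false

namespace Pool.Agent.P8H47.SM

open MeasureTheory ProbabilityTheory Filter

/-- the uniform distribution on `{a, …, a + u}` -/
noncomputable def unif (a u : ℕ) : Measure ℕ :=
  (PMF.uniformOfFinset (Finset.Icc a (a + u)) ⟨a, Finset.mem_Icc.2 ⟨le_rfl, Nat.le_add_right _ _⟩⟩).toMeasure

instance (a u : ℕ) : IsProbabilityMeasure (unif a u) := by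
  unfold unif
  infer_instance

lemma unif_singleton {a u x : ℕ} (hx : x ≤ u) : unif a u {a + x} = ((u + 1 : ℕ) : ENNReal)⁻¹ := by
  unfold unif
  rw [PMF.toMeasure_apply_singleton _ _ (measurableSet_singleton _),
    PMF.uniformOfFinset_apply_of_mem _ (Finset.mem_Icc.2 ⟨Nat.le_add_right _ _, by omega⟩),
    Nat.card_Icc]
  congr 2
  omega

lemma unif_compl {a u : ℕ} : unif a u {b | ¬ (a ≤ b ∧ b ≤ a + u)} = 0 := by
  unfold unif
  rw [PMF.toMeasure_apply_eq_zero_iff _ (Set.to_countable _).measurableSet, Set.disjoint_left]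
  intro b hb hb2
  rw [PMF.mem_support_uniformOfFinset_iff, Finset.mem_Icc] at hb
  exact hb2 hb

/-- deterministic consequence -/
theorem exists_move {L : ℕ → ℝ} (hL : Tendsto L atTop atTop) : ∃ g : ℕ → ℝ,
    Tendsto g atTop atTop ∧ ∀ A : Set ℕ,
      (∃ C : ℝ, 0 < C ∧ ∃ᶠ N : ℕ in atTop,
        Real.sqrt N / g N ≤ C * ((A ∩ Set.Icc 1 N).ncard : ℝ)) →
      ∃ y : ℕ → ℕ, (∀ a, a ≤ y a) ∧ (∀ᶠ a : ℕ in atTop, (y a : ℝ) ≤ a + L a) ∧
        ∀ K : ℕ, ∃ n, K < rep (y '' A) n := by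
  classical
  set L' : ℕ → ℝ := fun a => min (L a) (Real.log a) with hL'
  have hlog : Tendsto (fun a : ℕ => Real.log a) atTop atTop :=
    Real.tendsto_log_atTop.comp tendsto_natCast_atTop_atTop
  have hL'T : Tendsto L' atTop atTop := by
    rw [tendsto_atTop]
    intro b
    filter_upwards [hL.eventually_ge_atTop b, hlog.eventually_ge_atTop b] with a h1 h2
    exact le_min h1 h2
  obtain ⟨g, hg, hg1, hgL⟩ := exists_g hL'T
  refine ⟨g, hg, fun A hA => ?_⟩
  obtain ⟨C, hC, hA⟩ := hA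
  obtain ⟨Ω, _, P, Y, hm, hlaw, hi, hP⟩ :=
    exists_hasLaw_indepFun (fun _ : ℕ => ℕ) (fun a => unif a ⌊L' a⌋₊)
  have hmoves : Moves P L' Y := by
    refine ⟨hm, hi, fun ε hε => ?_⟩
    have h1 : ∀ᶠ a : ℕ in atTop, Real.log a + 1 ≤ (a : ℝ) ^ ε := by
      have h2 : Tendsto (fun x : ℝ => x ^ ε) atTop atTop := tendsto_rpow_atTop hε
      have h3 := (isLittleO_log_rpow_atTop hε).bound (by norm_num : (0 : ℝ) < 1 / 2)
      have h4 := h2.eventually_ge_atTop 2
      have h5 := Real.tendsto_log_atTop.eventually_ge_atTop 0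
      have h6 : ∀ᶠ x : ℝ in atTop, Real.log x + 1 ≤ x ^ ε := by
        filter_upwards [h3, h4, h5] with x h7 h8 h9
        rw [Real.norm_of_nonneg h9, Real.norm_of_nonneg (by linarith)] at h7
        linarith
      exact tendsto_natCast_atTop_atTop.eventually h6
    filter_upwards [h1, eventually_ge_atTop 1, hlog.eventually_ge_atTop 0] with a h2 h3 h4 x hx
    have ha : (0 : ℝ) < a := by exact_mod_cast h3
    have hxu : x ≤ ⌊L' a⌋₊ := Nat.le_floor hx
    have h5 : P {ω | Y a ω = a + x} = ((⌊L' a⌋₊ + 1 : ℕ) : ENNReal)⁻¹ := by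
      have h6 : P {ω | Y a ω = a + x} = P.map (Y a) {a + x} := by
        rw [Measure.map_apply (hm a) (measurableSet_singleton _)]
        rfl
      rw [h6, (hlaw a).map_eq, unif_singleton hxu]
    rw [measureReal_def, h5, ENNReal.toReal_inv, ENNReal.toReal_natCast, Real.rpow_neg ha.le]
    refine inv_anti₀ (by positivity) ?_
    refine le_trans ?_ h2
    push_cast
    have h7 : (⌊L' a⌋₊ : ℝ) ≤ Real.log a := by
      have h8 : ⌊L' a⌋₊ ≤ ⌊Real.log a⌋₊ := Nat.floor_mono (min_le_right _ _)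
      exact le_trans (by exact_mod_cast h8) (Nat.floor_le h4)
    linarith
  have h1 := ae_unbounded (Eventually.of_forall hg1) hgL hmoves hC hA
  have h2 : ∀ᵐ ω ∂P, ∀ a : ℕ, a ≤ Y a ω ∧ Y a ω ≤ a + ⌊L' a⌋₊ := by
    rw [ae_all_iff]
    intro a
    rw [ae_iff]
    have h3 : P {ω | ¬ (a ≤ Y a ω ∧ Y a ω ≤ a + ⌊L' a⌋₊)} =
        P.map (Y a) {b | ¬ (a ≤ b ∧ b ≤ a + ⌊L' a⌋₊)} := by
      rw [Measure.map_apply (hm a) (Set.to_countable _).measurableSet]
      rfl
    rw [h3, (hlaw a).map_eq, unif_compl]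
  obtain ⟨ω, h3, h4⟩ := (h1.and h2).exists
  refine ⟨fun a => Y a ω, fun a => (h4 a).1, ?_, h3⟩
  filter_upwards [hL'T.eventually_ge_atTop 0] with a ha
  have h5 : (Y a ω : ℝ) ≤ a + (⌊L' a⌋₊ : ℝ) := by exact_mod_cast (h4 a).2
  have h6 := Nat.floor_le ha
  have h7 : L' a ≤ L a := min_le_left _ _
  linarith

end Pool.Agent.P8H47.SM
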