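import Pool.Agent.P8H47.SM.Main

/-!
# Perturbed sets with many representations: the limit `N → ∞`, the choice of `g`, and bounded
perturbations
-/

set_option autoImplicit false

namespace Pool.Agent.P8H47.SM

open MeasureTheory ProbabilityTheory Filter

universe u

/-- The `Y a` are independent, and `Y a` takes each of the values `a + x`, `x ≤ L a`, with
probability at least `a ^ (-o(1))`. -/
def Moves {Ω : Type u} [MeasurableSpace Ω] (μ : Measure Ω) (L : ℕ → ℝ) (Y : ℕ → Ω → ℕ) : Prop :=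
  (∀ a, Measurable (Y a)) ∧ iIndepFun Y μ ∧ ∀ ε : ℝ, 0 < ε → ∀ᶠ a : ℕ in atTop,
    ∀ x : ℕ, (x : ℝ) ≤ L a → (a : ℝ) ^ (-ε) ≤ μ.real {ω | Y a ω = a + x}

lemma root_pow {x : ℝ} (hx : 0 ≤ x) (n : ℕ) {s : ℝ} (h : (n : ℝ) / 16 = s) :
    (x ^ (1 / 16 : ℝ)) ^ n = x ^ s := by
  rw [← Real.rpow_natCast, ← Real.rpow_mul hx, ← h]
  congr 1
  ring

lemma summable_exp : (∑' N : ℕ, ENNReal.ofReal (Real.exp (-((N : ℝ) ^ (1 / 16 : ℝ)) ^ 4))) ≠ ⊤ := by
  have hs : Summable fun N : ℕ => Real.exp (-((N : ℝ) ^ (1 / 16 : ℝ)) ^ 4) := by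
    have h2 : Summable fun N : ℕ => (Nat.factorial 8 : ℝ) * (1 / (N : ℝ) ^ 2) :=
      (Real.summable_one_div_nat_pow.2 (by norm_num)).mul_left _
    refine Summable.of_norm_bounded_eventually_nat h2 ?_
    filter_upwards [eventually_ge_atTop 1] with N hN
    have hN0 : (0 : ℝ) < N := by exact_mod_cast hN
    rw [Real.norm_of_nonneg (Real.exp_pos _).le]
    set x : ℝ := ((N : ℝ) ^ (1 / 16 : ℝ)) ^ 4 with hx
    have hx0 : 0 < x := by positivity
    have hx8 : x ^ 8 = (N : ℝ) ^ 2 := by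
      rw [hx, ← pow_mul, root_pow hN0.le (4 * 8) (s := 2) (by norm_num)]
      norm_num
    have h3 := Real.pow_div_factorial_le_exp x hx0.le 8
    rw [hx8] at h3
    rw [Real.exp_neg, mul_one_div, inv_eq_one_div, div_le_div_iff₀ (Real.exp_pos _) (by positivity)]
    have hf : (0 : ℝ) < (Nat.factorial 8 : ℝ) := by positivity
    rw [div_le_iff₀ hf] at h3
    linarith
  rw [← ENNReal.ofReal_tsum_of_nonneg (fun N => (Real.exp_pos _).le) hs]
  exact ENNReal.ofReal_ne_top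

/-- **Growth.** For all large `N` for which `A` has many elements up to `N`, some `n ≤ 3 N` has at
least `k N` representations. -/
theorem ae_growth {Ω : Type u} [MeasurableSpace Ω] {μ : Measure Ω} [IsProbabilityMeasure μ]
    {L g : ℕ → ℝ} {k : ℕ → ℕ} (hk1 : ∀ᶠ N in atTop, 1 ≤ k N) (hg1 : ∀ᶠ N in atTop, 1 ≤ g N)
    (hgL : ∀ D : ℝ, ∀ᶠ N : ℕ in atTop, ∀ a : ℕ, (N : ℝ) ^ (1 / 4 : ℝ) ≤ a → a ≤ N →
      D * (k N : ℝ) ^ 2 * g N ^ 2 ≤ L a)
    {Y : ℕ → Ω → ℕ} (hm : ∀ a, Measurable (Y a)) (hi : iIndepFun Y μ)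
    (hp : ∀ᶠ N : ℕ in atTop, ∀ a : ℕ, (N : ℝ) ^ (1 / 4 : ℝ) ≤ a → a ≤ N → ∀ x : ℕ,
      (x : ℝ) ≤ L a → (a : ℝ) ^ (-(1 / (16 * k N)) : ℝ) ≤ μ.real {ω | Y a ω = a + x})
    (A : Set ℕ) {C : ℝ} (hC : 0 < C) :
    ∀ᵐ ω ∂μ, ∀ᶠ N : ℕ in atTop, Real.sqrt N / g N ≤ C * ((A ∩ Set.Icc 1 N).ncard : ℝ) →
      ∃ n ≤ 3 * N, k N ≤ rep ((fun a => Y a ω) '' A) n := by
  classical
  set B : ℕ → Set Ω := fun N => {ω | ∀ n ≤ 3 * N, rep ((fun a => Y a ω) '' A) n < k N} with hB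
  have hT : Tendsto (fun N : ℕ => (N : ℝ) ^ (1 / 16 : ℝ)) atTop atTop :=
    (tendsto_rpow_atTop (by norm_num : (0 : ℝ) < 1 / 16)).comp tendsto_natCast_atTop_atTop
  have hev : ∀ᶠ N : ℕ in atTop, Real.sqrt N / g N ≤ C * ((A ∩ Set.Icc 1 N).ncard : ℝ) →
      μ (B N) ≤ ENNReal.ofReal (Real.exp (-((N : ℝ) ^ (1 / 16 : ℝ)) ^ 4)) := by
    filter_upwards [hk1, hg1, hgL (768 * C ^ 2 + 1), hgL (2 * (768 * C ^ 2 + 2)), hp,
      hT.eventually_ge_atTop 2, eventually_ge_atTop 1, hgL (2 * 256 * C ^ 2 + 2)]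
      with N hkN h1 h2 h3 h4 h5 h9 h33 hN
    have hN0 : (0 : ℝ) ≤ N := Nat.cast_nonneg _
    have hN1 : (1 : ℝ) ≤ N := by exact_mod_cast h9
    have hk0 : (1 : ℝ) ≤ k N := by exact_mod_cast hkN
    set K : ℝ := (k N : ℝ) with hK
    set t : ℝ := (N : ℝ) ^ (1 / 16 : ℝ) with ht
    have ht0 : 0 < t := by linarith
    have ht16 : t ^ 16 = N := by
      rw [ht, root_pow hN0 16 (s := 1) (by norm_num), Real.rpow_one]
    have ht8 : t ^ 8 = Real.sqrt N := by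
      rw [ht, root_pow hN0 8 (s := 1 / 2) (by norm_num), Real.sqrt_eq_rpow]
    have ht4 : t ^ 4 = (N : ℝ) ^ (1 / 4 : ℝ) := root_pow hN0 4 (by norm_num)
    have hN14 : (N : ℝ) ^ (1 / 4 : ℝ) ≤ N := by
      calc (N : ℝ) ^ (1 / 4 : ℝ) ≤ (N : ℝ) ^ (1 : ℝ) :=
            Real.rpow_le_rpow_of_exponent_le hN1 (by norm_num)
        _ = N := Real.rpow_one _
    -- the width is at most `t`
    have hLt : L N ≤ t := by
      set q : ℝ := (N : ℝ) ^ (-(1 / (16 * K)) : ℝ) with hq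
      have hq0 : 0 < q := Real.rpow_pos_of_pos (by linarith) _
      have h11 := width_le (hm N) hq0 (h4 N hN14 le_rfl)
      have h12 : q * (N : ℝ) ^ (1 / (16 * K) : ℝ) = 1 := by
        rw [hq, ← Real.rpow_add (by linarith)]
        simp
      have h13 : L N ≤ (N : ℝ) ^ (1 / (16 * K) : ℝ) := by
        calc L N = L N * q * (N : ℝ) ^ (1 / (16 * K) : ℝ) := by rw [mul_assoc, h12, mul_one]
          _ ≤ 1 * (N : ℝ) ^ (1 / (16 * K) : ℝ) :=
            mul_le_mul_of_nonneg_right h11 (Real.rpow_nonneg hN0 _)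
          _ = _ := one_mul _
      refine h13.trans (Real.rpow_le_rpow_of_exponent_le hN1 ?_)
      exact one_div_le_one_div_of_le (by norm_num) (by linarith)
    have hG2 : 1 ≤ g N ^ 2 := one_le_pow₀ h1
    have hK2 : 1 ≤ K ^ 2 := one_le_pow₀ hk0
    have hC2 : 0 < C ^ 2 := by positivity
    have hKG : K ^ 2 ≤ K ^ 2 * g N ^ 2 := le_mul_of_one_le_right (by positivity) hG2
    have hKG2 : g N ^ 2 ≤ K ^ 2 * g N ^ 2 := le_mul_of_one_le_left (by positivity) hK2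
    have hKG0 : 0 ≤ K ^ 2 * g N ^ 2 := by positivity
    have h2' := (h2 N hN14 le_rfl).trans hLt
    have h33' := (h33 N hN14 le_rfl).trans hLt
    have e2 : (768 * C ^ 2 + 1) * K ^ 2 * g N ^ 2 = (768 * C ^ 2 + 1) * (K ^ 2 * g N ^ 2) := by
      ring
    have e3 : (2 * 256 * C ^ 2 + 2) * K ^ 2 * g N ^ 2 =
        (2 * 256 * C ^ 2 + 2) * (K ^ 2 * g N ^ 2) := by ring
    rw [e2] at h2'
    rw [e3] at h33'
    set W : ℝ := K ^ 2 * g N ^ 2 with hW
    have hGt : g N ≤ t := by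
      have h14 : g N ≤ g N ^ 2 := by nlinarith
      nlinarith
    have hDt : (768 * C ^ 2 + 1) * K ^ 2 ≤ t :=
      (mul_le_mul_of_nonneg_left hKG (by positivity)).trans h2'
    have hCt : 16 * K * C ≤ t := by
      -- `2 * (16 K C) ≤ 1 + (16 K C) ^ 2`
      have h14 : 2 * (16 * K * C) ≤ 1 + 256 * C ^ 2 * K ^ 2 := by
        nlinarith [sq_nonneg (16 * K * C - 1)]
      have h15 : (2 * 256 * C ^ 2 + 2) * K ^ 2 ≤ t :=
        (mul_le_mul_of_nonneg_left hKG (by positivity)).trans h33'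
      nlinarith
    refine step hm hi hC hkN ht0 ht16 h1 hGt (D := (768 * C ^ 2 + 1) * K ^ 2) (L := L)
      (by nlinarith) hDt ?_ ?_ ?_ h5 hCt
    · intro a ha haN
      have h14 := h3 a (by rw [← ht4]; exact ha) haN
      refine le_trans ?_ h14
      have h15 : 0 ≤ g N ^ 2 := by positivity
      have h16 : 2 * ((768 * C ^ 2 + 1) * K ^ 2 + 1) ≤ 2 * (768 * C ^ 2 + 2) * K ^ 2 := by
        nlinarith
      exact mul_le_mul_of_nonneg_right h16 h15
    · intro a ha haN x hx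
      exact h4 a (by rw [← ht4]; exact ha) haN x hx
    · rw [ht8]
      exact hN
  obtain ⟨N0, hN0⟩ := eventually_atTop.1 hev
  set B' : ℕ → Set Ω := fun N => if N0 ≤ N ∧ Real.sqrt N / g N ≤
    C * ((A ∩ Set.Icc 1 N).ncard : ℝ) then B N else ∅ with hB'
  have hle : ∀ N, μ (B' N) ≤ ENNReal.ofReal (Real.exp (-((N : ℝ) ^ (1 / 16 : ℝ)) ^ 4)) := by
    intro N
    by_cases h : N0 ≤ N ∧ Real.sqrt N / g N ≤ C * ((A ∩ Set.Icc 1 N).ncard : ℝ)
    · simp only [hB', if_pos h]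
      exact hN0 N h.1 h.2
    · simp only [hB', if_neg h, measure_empty]
      exact zero_le
  have hsum : (∑' N, μ (B' N)) ≠ ⊤ :=
    ne_top_of_le_ne_top summable_exp (ENNReal.tsum_le_tsum hle)
  filter_upwards [ae_eventually_notMem hsum] with ω hω
  filter_upwards [hω, eventually_ge_atTop N0] with N h1 h2 h3
  have h4 : ω ∉ B N := by
    have e : B' N = B N := by
      simp only [hB']
      rw [if_pos ⟨h2, h3⟩]
    rwa [e] at h1
  by_contra hcon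
  apply h4
  intro n hn
  by_contra h5
  exact hcon ⟨n, hn, not_lt.1 h5⟩

theorem ae_unbounded {Ω : Type u} [MeasurableSpace Ω] {μ : Measure Ω} [IsProbabilityMeasure μ]
    {L g : ℕ → ℝ} (hg1 : ∀ᶠ N in atTop, 1 ≤ g N)
    (hgL : ∀ D : ℝ, ∀ᶠ N : ℕ in atTop, ∀ a : ℕ, (N : ℝ) ^ (1 / 4 : ℝ) ≤ a → a ≤ N →
      D * g N ^ 2 ≤ L a)
    {Y : ℕ → Ω → ℕ} (hY : Moves μ L Y) {A : Set ℕ} {C : ℝ} (hC : 0 < C)
    (hA : ∃ᶠ N : ℕ in atTop, Real.sqrt N / g N ≤ C * ((A ∩ Set.Icc 1 N).ncard : ℝ)) :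
    ∀ᵐ ω ∂μ, ∀ K : ℕ, ∃ n, K < rep ((fun a => Y a ω) '' A) n := by
  rw [ae_all_iff]
  intro K
  have hT4 : Tendsto (fun N : ℕ => (N : ℝ) ^ (1 / 4 : ℝ)) atTop atTop :=
    (tendsto_rpow_atTop (by norm_num : (0 : ℝ) < 1 / 4)).comp tendsto_natCast_atTop_atTop
  obtain ⟨hm, hi, hp⟩ := hY
  obtain ⟨a0, ha0⟩ := eventually_atTop.1 (hp (1 / (16 * (K + 1 : ℕ))) (by positivity))
  have h := ae_growth (k := fun _ => K + 1) (Eventually.of_forall fun _ => by omega) hg1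
    (fun D => hgL (D * ((K + 1 : ℕ) : ℝ) ^ 2)) hm hi (by
      filter_upwards [hT4.eventually_ge_atTop (a0 : ℝ)] with N hN a ha _ x hx
      exact ha0 a (by exact_mod_cast hN.trans ha) x hx) A hC
  filter_upwards [h] with ω hω
  obtain ⟨N, h1, h2⟩ := (hA.and_eventually hω).exists
  obtain ⟨n, -, hn⟩ := h2 h1
  exact ⟨n, by omega⟩

/-- for every `L → ∞` there is an admissible `g → ∞` -/
theorem exists_g {L : ℕ → ℝ} (hL : Tendsto L atTop atTop) : ∃ g : ℕ → ℝ,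
    Tendsto g atTop atTop ∧ (∀ N, 1 ≤ g N) ∧
    ∀ D : ℝ, ∀ᶠ N : ℕ in atTop, ∀ a : ℕ, (N : ℝ) ^ (1 / 4 : ℝ) ≤ a → a ≤ N →
      D * g N ^ 2 ≤ L a := by
  classical
  set P : ℕ → ℕ → Prop := fun N m => ∀ a : ℕ, (N : ℝ) ^ (1 / 4 : ℝ) ≤ a → (m : ℝ) ^ 4 ≤ L a with hP
  set m : ℕ → ℕ := fun N => Nat.findGreatest (P N) N with hm
  have hT : Tendsto (fun N : ℕ => (N : ℝ) ^ (1 / 4 : ℝ)) atTop atTop :=
    (tendsto_rpow_atTop (by norm_num : (0 : ℝ) < 1 / 4)).comp tendsto_natCast_atTop_atTop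
  have hev : ∀ b : ℕ, ∀ᶠ N in atTop, P N b := by
    intro b
    obtain ⟨a0, ha0⟩ := eventually_atTop.1 (hL.eventually_ge_atTop ((b : ℝ) ^ 4))
    filter_upwards [hT.eventually_ge_atTop (a0 : ℝ)] with N hN a ha
    exact ha0 a (by exact_mod_cast hN.trans ha)
  have hge : ∀ b : ℕ, ∀ᶠ N in atTop, b ≤ m N := by
    intro b
    filter_upwards [hev b, eventually_ge_atTop b] with N h1 h2
    exact Nat.le_findGreatest h2 h1
  have hsp : ∀ᶠ N in atTop, P N (m N) := by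
    filter_upwards [hev 1, eventually_ge_atTop 1] with N h1 h2
    exact Nat.findGreatest_spec (P := P N) h2 h1
  have hmT : Tendsto (fun N => (m N : ℝ)) atTop atTop :=
    tendsto_natCast_atTop_atTop.comp (tendsto_atTop.2 hge)
  refine ⟨fun N => max 1 (m N : ℝ), tendsto_atTop_mono (fun N => le_max_right _ _) hmT,
    fun N => le_max_left _ _, ?_⟩
  intro D
  filter_upwards [hsp, hmT.eventually_ge_atTop 1, hmT.eventually_ge_atTop D] with N h1 h2 h3 a ha _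
  have h4 : max 1 (m N : ℝ) = m N := max_eq_right h2
  simp only [h4]
  refine le_trans ?_ (h1 a ha)
  have h5 : D ≤ (m N : ℝ) ^ 2 := by nlinarith
  calc D * (m N : ℝ) ^ 2 ≤ (m N : ℝ) ^ 2 * (m N : ℝ) ^ 2 :=
        mul_le_mul_of_nonneg_right h5 (by positivity)
    _ = (m N : ℝ) ^ 4 := by ring

/-! ### bounded perturbations -/

/-- the pairs of elements of `B` with sum in `[n - s, n + s]` -/
lemma near_card {B : Set ℕ} {K : ℕ} (hB : ∀ n, rep B n ≤ K) (n s : ℕ) :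
    {p : ℕ × ℕ | p.1 ∈ B ∧ p.2 ∈ B ∧ n ≤ p.1 + p.2 + s ∧ p.1 + p.2 ≤ n + s}.Finite ∧
    {p : ℕ × ℕ | p.1 ∈ B ∧ p.2 ∈ B ∧ n ≤ p.1 + p.2 + s ∧ p.1 + p.2 ≤ n + s}.ncard ≤
      (2 * s + 1) * K := by
  classical
  set U : Finset (ℕ × ℕ) := (Finset.Icc (n - s) (n + s)).biUnion
    fun m => (rep_finite B m).toFinset with hU
  have hsub : {p : ℕ × ℕ | p.1 ∈ B ∧ p.2 ∈ B ∧ n ≤ p.1 + p.2 + s ∧ p.1 + p.2 ≤ n + s} ⊆
      (U : Set (ℕ × ℕ)) := by
    rintro p ⟨h1, h2, h3, h4⟩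
    rw [Finset.mem_coe, hU, Finset.mem_biUnion]
    refine ⟨p.1 + p.2, Finset.mem_Icc.2 ⟨by omega, h4⟩, ?_⟩
    rw [Set.Finite.mem_toFinset]
    exact ⟨h1, h2, rfl⟩
  refine ⟨U.finite_toSet.subset hsub, ?_⟩
  refine (Set.ncard_le_ncard hsub U.finite_toSet).trans ?_
  rw [Set.ncard_coe_finset]
  refine Finset.card_biUnion_le.trans ?_
  refine (Finset.sum_le_card_nsmul _ _ K ?_).trans ?_
  · intro m _
    rw [← Set.ncard_eq_toFinset_card _ (rep_finite B m)]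
    exact hB m
  · rw [smul_eq_mul, Nat.card_Icc]
    exact Nat.mul_le_mul_right _ (by omega)

/-- bounded perturbations do not matter -/
theorem bounded_iff {A : Set ℕ} {y : ℕ → ℕ} {s : ℕ} (hy : ∀ a ∈ A, a ≤ y a + s ∧ y a ≤ a + s) :
    (∃ K, ∀ n, rep A n ≤ K) ↔ ∃ K, ∀ n, rep (y '' A) n ≤ K := by
  classical
  constructor
  · rintro ⟨K, hK⟩
    refine ⟨(2 * (2 * s) + 1) * K, fun n => ?_⟩
    obtain ⟨h1, h2⟩ := near_card hK n (2 * s)
    refine le_trans ?_ h2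
    have hch : ∀ b ∈ y '' A, ∃ a ∈ A, y a = b := fun b hb => hb
    choose! c hc1 hc2 using hch
    refine Set.ncard_le_ncard_of_injOn (fun p : ℕ × ℕ => (c p.1, c p.2)) ?_ ?_ h1
    · rintro p ⟨h3, h4, h5⟩
      have h6 := hy _ (hc1 _ h3)
      have h7 := hy _ (hc1 _ h4)
      rw [hc2 _ h3] at h6
      rw [hc2 _ h4] at h7
      exact ⟨hc1 _ h3, hc1 _ h4, by simp only; omega, by simp only; omega⟩
    · rintro p ⟨h3, h4, -⟩ q ⟨h5, h6, -⟩ h
      have h7 := (Prod.ext_iff.1 h).1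
      have h8 := (Prod.ext_iff.1 h).2
      simp only at h7 h8
      refine Prod.ext ?_ ?_
      · rw [← hc2 _ h3, ← hc2 _ h5, h7]
      · rw [← hc2 _ h4, ← hc2 _ h6, h8]
  · rintro ⟨K, hK⟩
    refine ⟨(2 * s + 1) ^ 2 * ((2 * (2 * s) + 1) * K), fun n => ?_⟩
    obtain ⟨h1, h2⟩ := near_card hK n (2 * s)
    set F : Finset (ℕ × ℕ) := (rep_finite A n).toFinset with hF
    have hmem : ∀ p ∈ F, p.1 ∈ A ∧ p.2 ∈ A ∧ p.1 + p.2 = n := by
      intro p hp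
      rw [hF, Set.Finite.mem_toFinset] at hp
      exact hp
    have h3 : rep A n = F.card := Set.ncard_eq_toFinset_card _ (rep_finite A n)
    set f : ℕ × ℕ → ℕ × ℕ := fun p => (y p.1, y p.2) with hf
    have h4 : F.card ≤ (2 * s + 1) ^ 2 * (F.image f).card := by
      refine Finset.card_le_mul_card_image _ _ fun b _ => ?_
      have hsub : (F.filter fun p => f p = b) ⊆
          Finset.Icc (b.1 - s) (b.1 + s) ×ˢ Finset.Icc (b.2 - s) (b.2 + s) := by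
        intro p hp
        obtain ⟨hp1, hp2⟩ := Finset.mem_filter.1 hp
        have e1 : y p.1 = b.1 := (Prod.ext_iff.1 hp2).1
        have e2 : y p.2 = b.2 := (Prod.ext_iff.1 hp2).2
        have h5 := hy _ (hmem p hp1).1
        have h6 := hy _ (hmem p hp1).2.1
        rw [Finset.mem_product, Finset.mem_Icc, Finset.mem_Icc]
        omega
      refine (Finset.card_le_card hsub).trans ?_
      rw [Finset.card_product, Nat.card_Icc, Nat.card_Icc, sq]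
      exact Nat.mul_le_mul (by omega) (by omega)
    have h5 : (F.image f).card ≤ (2 * (2 * s) + 1) * K := by
      refine le_trans ?_ h2
      rw [← Set.ncard_coe_finset]
      refine Set.ncard_le_ncard ?_ h1
      intro q hq
      rw [Finset.mem_coe, Finset.mem_image] at hq
      obtain ⟨p, hp, rfl⟩ := hq
      obtain ⟨h6, h7, h8⟩ := hmem p hp
      have h9 := hy _ h6
      have h10 := hy _ h7
      refine ⟨⟨p.1, h6, rfl⟩, ⟨p.2, h7, rfl⟩, ?_, ?_⟩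
      · simp only [hf]
        omega
      · simp only [hf]
        omega
    rw [h3]
    exact h4.trans (Nat.mul_le_mul_left _ h5)

end Pool.Agent.P8H47.SM
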