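import Pool.Agent.P8H47.SM.Prob

/-!
# Perturbed sets with many representations: the almost sure statement
-/

set_option autoImplicit false

namespace Pool.Agent.P8H47.SM

open MeasureTheory ProbabilityTheory Filter

universe u

variable {Ω : Type u} [MeasurableSpace Ω] {μ : Measure Ω}

lemma width_le [IsProbabilityMeasure μ] {Z : Ω → ℕ} (hm : Measurable Z) {a : ℕ} {L q : ℝ}
    (hq : 0 < q) (h : ∀ x : ℕ, (x : ℝ) ≤ L → q ≤ μ.real {ω | Z ω = a + x}) : L * q ≤ 1 := by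
  by_cases hL : L < 0
  · nlinarith
  have hL0 : 0 ≤ L := not_lt.1 hL
  have h1 : ∑ x ∈ Finset.range (⌊L⌋₊ + 1), μ.real {ω | Z ω = a + x} ≤ 1 := by
    rw [← measureReal_biUnion_finset]
    · exact measureReal_le_one
    · intro x _ y _ hxy
      rw [Function.onFun, Set.disjoint_left]
      intro ω h1 h2
      exact hxy (Nat.add_left_cancel ((Eq.symm h1).trans h2))
    · intro x _
      exact hm (measurableSet_singleton _)
  have h2 : ∑ x ∈ Finset.range (⌊L⌋₊ + 1), q ≤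
      ∑ x ∈ Finset.range (⌊L⌋₊ + 1), μ.real {ω | Z ω = a + x} := by
    refine Finset.sum_le_sum fun x hx => h x ?_
    have h3 : x ≤ ⌊L⌋₊ := Nat.lt_succ_iff.1 (Finset.mem_range.1 hx)
    exact le_trans (by exact_mod_cast h3) (Nat.floor_le hL0)
  rw [Finset.sum_const, Finset.card_range, nsmul_eq_mul] at h2
  have h3 := Nat.lt_floor_add_one L
  push_cast at h2
  nlinarith

/-- one scale `N = t ^ 16` -/
lemma step [IsProbabilityMeasure μ] {Y : ℕ → Ω → ℕ} (hm : ∀ a, Measurable (Y a))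
    (hi : iIndepFun Y μ) {A : Set ℕ} {C : ℝ} (hC : 0 < C) {k : ℕ} (hk : 1 ≤ k) {N : ℕ}
    {t G D : ℝ} {L : ℕ → ℝ} (ht : 0 < t) (htN : t ^ 16 = N) (hG : 1 ≤ G) (hGt : G ≤ t)
    (hD : 768 * (k : ℝ) ^ 2 * C ^ 2 < D) (hDt : D ≤ t)
    (hL : ∀ a : ℕ, t ^ 4 ≤ a → a ≤ N → 2 * (D + 1) * G ^ 2 ≤ L a)
    (hY : ∀ a : ℕ, t ^ 4 ≤ a → a ≤ N → ∀ x : ℕ, (x : ℝ) ≤ L a →
      (a : ℝ) ^ (-(1 / (16 * k) : ℝ)) ≤ μ.real {ω | Y a ω = a + x})
    (hA : t ^ 8 / G ≤ C * ((A ∩ Set.Icc 1 N).ncard : ℝ)) (ht1 : 2 ≤ t) (ht2 : 16 * k * C ≤ t) :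
    μ {ω | ∀ n ≤ 3 * N, rep ((fun a => Y a ω) '' A) n < k} ≤
      ENNReal.ofReal (Real.exp (-t ^ 4)) := by
  classical
  have ht1' := ht1
  replace ht1 : 1 ≤ t := by linarith
  have hk0 : (0 : ℝ) < k := by exact_mod_cast hk
  have hk1 : (1 : ℝ) ≤ k := by exact_mod_cast hk
  have hD0 : 0 < D := lt_of_le_of_lt (by positivity) hD
  have hG0 : 0 < G := by linarith
  set n0 : ℕ := ⌈t ^ 4⌉₊ with hn0
  have hn0pos : 0 < n0 := Nat.ceil_pos.2 (by positivity)
  set S : Finset ℕ := (Finset.Icc n0 N).filter (· ∈ A) with hS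
  have hSmem : ∀ a ∈ S, t ^ 4 ≤ a ∧ a ≤ N ∧ a ∈ A := by
    intro a ha
    rw [hS, Finset.mem_filter, Finset.mem_Icc] at ha
    exact ⟨(Nat.le_ceil _).trans (by exact_mod_cast ha.1.1), ha.1.2, ha.2⟩
  -- the size of `S`
  have hc1 : (A ∩ Set.Icc 1 N).ncard ≤ S.card + (n0 - 1) := by
    have hsub : A ∩ Set.Icc 1 N ⊆ ((S ∪ Finset.Ico 1 n0 : Finset ℕ) : Set ℕ) := by
      rintro a ⟨ha, h1, h2⟩
      rw [Finset.mem_coe, Finset.mem_union]
      by_cases h : n0 ≤ a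
      · exact Or.inl (by rw [hS, Finset.mem_filter, Finset.mem_Icc]; exact ⟨⟨h, h2⟩, ha⟩)
      · exact Or.inr (by rw [Finset.mem_Ico]; exact ⟨h1, by omega⟩)
    refine (Set.ncard_le_ncard hsub (Finset.finite_toSet _)).trans ?_
    rw [Set.ncard_coe_finset]
    refine (Finset.card_union_le _ _).trans ?_
    rw [Nat.card_Ico]
  have hc2 : ((n0 - 1 : ℕ) : ℝ) ≤ t ^ 4 := by
    have h1 := Nat.ceil_lt_add_one (show (0 : ℝ) ≤ t ^ 4 by positivity)
    rw [Nat.cast_sub hn0pos]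
    push_cast
    rw [← hn0] at h1
    linarith
  have hc3 : ((A ∩ Set.Icc 1 N).ncard : ℝ) ≤ S.card + t ^ 4 := by
    have h1 : ((A ∩ Set.Icc 1 N).ncard : ℝ) ≤ (S.card : ℝ) + ((n0 - 1 : ℕ) : ℝ) := by
      exact_mod_cast hc1
    linarith
  have hc4 : t ^ 8 ≤ C * G * (S.card + t ^ 4) := by
    rw [div_le_iff₀ hG0] at hA
    have h1 : C * ((A ∩ Set.Icc 1 N).ncard : ℝ) ≤ C * (S.card + t ^ 4) :=
      mul_le_mul_of_nonneg_left hc3 hC.le
    have h2 : C * ((A ∩ Set.Icc 1 N).ncard : ℝ) * G ≤ C * (S.card + t ^ 4) * G :=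
      mul_le_mul_of_nonneg_right h1 hG0.le
    nlinarith
  have hCt : 16 * C ≤ t := by nlinarith
  have hc5 : t ^ 8 ≤ 2 * C * G * S.card := by
    -- `2 C G t ^ 4 ≤ t ^ 8`
    have h1 : 2 * (C * G * t ^ 4) ≤ t ^ 8 := by
      have h2 : 2 * (C * G) ≤ t ^ 4 := by
        have h3 : C * G ≤ C * t := mul_le_mul_of_nonneg_left hGt hC.le
        have h4 : C * t ≤ t * t := by nlinarith
        have h5 : 2 * (C * t) ≤ t * t := by nlinarith
        have h6 : t * t ≤ t ^ 4 := by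
          have : 1 ≤ t ^ 2 := one_le_pow₀ ht1
          nlinarith
        linarith
      have h7 : (0 : ℝ) < t ^ 4 := by positivity
      calc 2 * (C * G * t ^ 4) = 2 * (C * G) * t ^ 4 := by ring
        _ ≤ t ^ 4 * t ^ 4 := mul_le_mul_of_nonneg_right h2 h7.le
        _ = t ^ 8 := by ring
    nlinarith
  have hc6 : 8 * k * t ^ 6 ≤ S.card := by
    -- `t ^ 8 ≤ 2 C t s`
    have h1 : t ^ 8 ≤ 2 * C * t * S.card := by
      refine hc5.trans ?_
      have : 2 * C * G ≤ 2 * C * t := by nlinarith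
      exact mul_le_mul_of_nonneg_right this (Nat.cast_nonneg _)
    have h2 : 16 * k * C * t ^ 7 ≤ t ^ 8 := by
      have : (0 : ℝ) < t ^ 7 := by positivity
      calc 16 * k * C * t ^ 7 ≤ t * t ^ 7 := mul_le_mul_of_nonneg_right ht2 this.le
        _ = t ^ 8 := by ring
    have h3 : 2 * C * t * (8 * k * t ^ 6) ≤ 2 * C * t * S.card := by
      calc 2 * C * t * (8 * k * t ^ 6) = 16 * k * C * t ^ 7 := by ring
        _ ≤ _ := h2.trans h1
    exact le_of_mul_le_mul_left h3 (by positivity)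
  have ht6 : 1 ≤ t ^ 6 := one_le_pow₀ ht1
  -- the length of the cells
  set l : ℕ := ⌈D * G ^ 2⌉₊ with hl
  have hl1 : 1 ≤ l := Nat.one_le_ceil_iff.2 (by positivity)
  have hl2 : D * G ^ 2 ≤ l := Nat.le_ceil _
  have hG2 : 1 ≤ G ^ 2 := one_le_pow₀ hG
  have hl3 : (l : ℝ) ≤ (D + 1) * G ^ 2 := by
    have h1 := Nat.ceil_lt_add_one (show (0 : ℝ) ≤ D * G ^ 2 by positivity)
    rw [← hl] at h1
    nlinarith
  have hl4 : 2 * l ≤ N := by
    have h1 : (D + 1) * G ^ 2 ≤ (t + 1) * t ^ 2 := by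
      have : G ^ 2 ≤ t ^ 2 := pow_le_pow_left₀ hG0.le hGt 2
      exact mul_le_mul (by linarith) this (by positivity) (by linarith)
    have h2 : 2 * ((t + 1) * t ^ 2) ≤ t ^ 16 := by
      have h3 : (t + 1) * t ^ 2 ≤ 2 * t ^ 3 := by nlinarith [sq_nonneg t]
      have h4 : 4 ≤ t ^ 13 := by
        calc (4 : ℝ) ≤ 2 ^ 13 := by norm_num
          _ ≤ t ^ 13 := pow_le_pow_left₀ (by norm_num) ht1' 13
      have h5 : (0 : ℝ) < t ^ 3 := by positivity
      calc 2 * ((t + 1) * t ^ 2) ≤ 4 * t ^ 3 := by linarith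
        _ ≤ t ^ 13 * t ^ 3 := mul_le_mul_of_nonneg_right h4 h5.le
        _ = t ^ 16 := by ring
    have h3 : ((2 * l : ℕ) : ℝ) ≤ N := by
      rw [← htN]
      push_cast
      linarith
    exact_mod_cast h3
  -- the combinatorial condition
  have hs8 : (8 : ℝ) ≤ S.card := by nlinarith
  have hs8' : 8 ≤ S.card := by exact_mod_cast hs8
  have hcomb : 32 * k ^ 2 * (2 * (N / l) + 1) < S.card * (S.card - 2) := by
    have h1 : ((N / l : ℕ) : ℝ) ≤ N / (D * G ^ 2) := by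
      refine (Nat.cast_div_le).trans ?_
      exact div_le_div_of_nonneg_left (Nat.cast_nonneg _) (by positivity) hl2
    have h2 : (1 : ℝ) ≤ N / (D * G ^ 2) := by
      rw [one_le_div (by positivity), ← htN]
      have h3 : D * G ^ 2 ≤ t * t ^ 2 := by
        have : G ^ 2 ≤ t ^ 2 := pow_le_pow_left₀ hG0.le hGt 2
        exact mul_le_mul hDt this (by positivity) ht.le
      have h4 : t ^ 3 ≤ t ^ 16 := pow_le_pow_right₀ ht1 (by norm_num)
      nlinarith
    have h3 : 32 * (k : ℝ) ^ 2 * (2 * ((N / l : ℕ) : ℝ) + 1) ≤ 96 * k ^ 2 * (N / (D * G ^ 2)) := by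
      have h4 : 2 * ((N / l : ℕ) : ℝ) + 1 ≤ 3 * (N / (D * G ^ 2)) := by linarith
      calc 32 * (k : ℝ) ^ 2 * (2 * ((N / l : ℕ) : ℝ) + 1)
          ≤ 32 * (k : ℝ) ^ 2 * (3 * (N / (D * G ^ 2))) :=
            mul_le_mul_of_nonneg_left h4 (by positivity)
        _ = _ := by ring
    have h5 : (N : ℝ) ≤ 4 * C ^ 2 * G ^ 2 * (S.card : ℝ) ^ 2 := by
      rw [← htN]
      calc t ^ 16 = t ^ 8 * t ^ 8 := by ring
        _ ≤ (2 * C * G * S.card) * (2 * C * G * S.card) :=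
          mul_le_mul hc5 hc5 (by positivity) (by positivity)
        _ = _ := by ring
    have h6 : 96 * (k : ℝ) ^ 2 * (N / (D * G ^ 2)) < (S.card : ℝ) ^ 2 / 2 := by
      have h7 : (N : ℝ) / (D * G ^ 2) ≤ 4 * C ^ 2 * (S.card : ℝ) ^ 2 / D := by
        rw [div_le_div_iff₀ (by positivity) hD0]
        calc (N : ℝ) * D ≤ 4 * C ^ 2 * G ^ 2 * (S.card : ℝ) ^ 2 * D :=
              mul_le_mul_of_nonneg_right h5 hD0.le
          _ = _ := by ring
      have h8 : 96 * (k : ℝ) ^ 2 * (4 * C ^ 2 * (S.card : ℝ) ^ 2 / D) < (S.card : ℝ) ^ 2 / 2 := by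
        have h9 : (0 : ℝ) < (S.card : ℝ) ^ 2 := by positivity
        rw [mul_div_assoc', div_lt_div_iff₀ hD0 (by norm_num)]
        calc 96 * (k : ℝ) ^ 2 * (4 * C ^ 2 * (S.card : ℝ) ^ 2) * 2
            = 768 * (k : ℝ) ^ 2 * C ^ 2 * (S.card : ℝ) ^ 2 := by ring
          _ < D * (S.card : ℝ) ^ 2 := mul_lt_mul_of_pos_right hD h9
          _ = (S.card : ℝ) ^ 2 * D := by ring
      exact lt_of_le_of_lt (mul_le_mul_of_nonneg_left h7 (by positivity)) h8
    have h7 : (S.card : ℝ) ^ 2 / 2 ≤ S.card * (S.card - 2) := by nlinarith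
    have h8 : ((32 * k ^ 2 * (2 * (N / l) + 1) : ℕ) : ℝ) < ((S.card * (S.card - 2) : ℕ) : ℝ) := by
      rw [Nat.cast_mul S.card, Nat.cast_sub (by omega : 2 ≤ S.card)]
      push_cast
      linarith
    exact_mod_cast h8
  -- the number of the groups
  set M : ℕ := S.card / (4 * k) with hM
  have hM1 : 4 * k * M ≤ S.card := Nat.mul_div_le _ _
  have hM2 : t ^ 6 ≤ M := by
    have h1 : S.card < 4 * k * (M + 1) := by
      rw [hM]
      exact Nat.lt_mul_div_succ _ (by omega)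
    have h2 : (S.card : ℝ) < 4 * k * (M + 1) := by exact_mod_cast h1
    have h3 : 4 * (k : ℝ) * (2 * t ^ 6) < 4 * k * (M + 1) := by
      have e : 4 * (k : ℝ) * (2 * t ^ 6) = 8 * k * t ^ 6 := by ring
      rw [e]
      exact lt_of_le_of_lt hc6 h2
    have h4 := lt_of_mul_lt_mul_left h3 (by positivity)
    linarith
  -- the probabilities
  have hN1 : (1 : ℝ) ≤ N := by rw [← htN]; exact one_le_pow₀ ht1
  set q : ℝ := (N : ℝ) ^ (-(1 / (16 * k) : ℝ)) with hq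
  have hq0 : 0 < q := Real.rpow_pos_of_pos (by linarith) _
  have hq1 : q ≤ 1 := Real.rpow_le_one_of_one_le_of_nonpos hN1 (by
    have : (0 : ℝ) < 1 / (16 * k) := by positivity
    linarith)
  have hqk : q ^ (2 * k) * t ^ 2 = 1 := by
    have h1 : q ^ (2 * k) = t ^ (-2 : ℝ) := by
      rw [hq, ← Real.rpow_natCast, ← Real.rpow_mul (by linarith), ← htN, ← Real.rpow_natCast t 16,
        ← Real.rpow_mul ht.le]
      congr 1
      push_cast
      field_simp
    rw [h1, ← Real.rpow_natCast t 2, ← Real.rpow_add ht]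
    norm_num
  have hη : ∀ a ∈ S, ∀ x ≤ 2 * l, ENNReal.ofReal q ≤ μ {ω | Y a ω = a + x} := by
    intro a ha x hx
    obtain ⟨h1, h2, -⟩ := hSmem a ha
    rw [ENNReal.ofReal_le_iff_le_toReal (measure_ne_top μ _)]
    have h3 : (0 : ℝ) < a := lt_of_lt_of_le (by positivity) h1
    have h4 : q ≤ (a : ℝ) ^ (-(1 / (16 * k) : ℝ)) := by
      refine Real.rpow_le_rpow_of_nonpos h3 (by exact_mod_cast h2) ?_
      have : (0 : ℝ) < 1 / (16 * k) := by positivity
      linarith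
    refine h4.trans (hY a h1 h2 x ?_)
    have h5 : (x : ℝ) ≤ 2 * l := by exact_mod_cast hx
    have h6 := hL a h1 h2
    nlinarith
  have hmain := prob_finite hm hi (η := ENNReal.ofReal q) (by
    rw [← ENNReal.ofReal_one]
    exact ENNReal.ofReal_le_ofReal hq1) hk hl1 S (fun a ha => (hSmem a ha).2.1) hη hM1 hcomb
  refine (measure_mono ?_).trans (hmain.trans ?_)
  · intro ω hω n hn
    refine lt_of_le_of_lt (rep_mono (Set.image_mono ?_) n) (hω n (by omega))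
    intro a ha
    exact (hSmem a ha).2.2
  · have hu0 : 0 ≤ q ^ (2 * k) := by positivity
    have hu1 : q ^ (2 * k) ≤ 1 := pow_le_one₀ hq0.le hq1
    rw [← ENNReal.ofReal_pow hq0.le, ← ENNReal.ofReal_one, ← ENNReal.ofReal_sub _ hu0,
      ← ENNReal.ofReal_pow (by linarith)]
    refine ENNReal.ofReal_le_ofReal ?_
    have h1 : 1 - q ^ (2 * k) ≤ Real.exp (-q ^ (2 * k)) := by
      have := Real.add_one_le_exp (-q ^ (2 * k))
      linarith
    calc (1 - q ^ (2 * k)) ^ M ≤ Real.exp (-q ^ (2 * k)) ^ M :=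
          pow_le_pow_left₀ (by linarith) h1 M
      _ = Real.exp (-(M * q ^ (2 * k))) := by
          rw [← Real.exp_nat_mul]
          congr 1
          ring
      _ ≤ Real.exp (-t ^ 4) := by
          refine Real.exp_le_exp.2 ?_
          have h2 : t ^ 6 * q ^ (2 * k) ≤ M * q ^ (2 * k) := mul_le_mul_of_nonneg_right hM2 hu0
          have h3 : t ^ 6 * q ^ (2 * k) = t ^ 4 := by
            calc t ^ 6 * q ^ (2 * k) = t ^ 4 * (q ^ (2 * k) * t ^ 2) := by ring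
              _ = t ^ 4 := by rw [hqk, mul_one]
          linarith

end Pool.Agent.P8H47.SM
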