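import Pool.Agent.P8H47.SM.Comb

/-!
# Perturbed sets with many representations: probability
-/

set_option autoImplicit false

namespace Pool.Agent.P8H47.SM

open MeasureTheory ProbabilityTheory

universe u

variable {Ω : Type u} [MeasurableSpace Ω] {μ : Measure Ω}

/-- `Q` depends only on the coordinates in `S` -/
def DepOn (S : Finset ℕ) (Q : (ℕ → ℕ) → Prop) : Prop :=
  ∀ f g : ℕ → ℕ, (∀ a ∈ S, f a = g a) → Q f → Q g

/-- extension by zero -/
noncomputable def ext0 (S : Finset ℕ) (z : S → ℕ) : ℕ → ℕ := by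
  classical exact fun a => if h : a ∈ S then z ⟨a, h⟩ else 0

lemma ext0_eq {S : Finset ℕ} (f : ℕ → ℕ) {a : ℕ} (ha : a ∈ S) :
    ext0 S (fun i : S => f i) a = f a := by
  unfold ext0
  simp [ha]

omit [MeasurableSpace Ω] in
lemma event_eq {S : Finset ℕ} {Q : (ℕ → ℕ) → Prop} (hQ : DepOn S Q) (Y : ℕ → Ω → ℕ) :
    {ω | Q fun a => Y a ω} = (fun ω (i : S) => Y i ω) ⁻¹' {z | Q (ext0 S z)} := by
  ext ω
  simp only [Set.mem_ofPred_eq, Set.mem_preimage]
  constructor
  · exact hQ _ _ fun a ha => (ext0_eq (fun a => Y a ω) ha).symm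
  · exact hQ _ _ fun a ha => ext0_eq (fun a => Y a ω) ha

lemma meas_set {S : Finset ℕ} (s : Set (S → ℕ)) : MeasurableSet s := s.to_countable.measurableSet

lemma meas_event {S : Finset ℕ} {Q : (ℕ → ℕ) → Prop} (hQ : DepOn S Q) {Y : ℕ → Ω → ℕ}
    (hm : ∀ a, Measurable (Y a)) : MeasurableSet {ω | Q fun a => Y a ω} := by
  rw [event_eq hQ]
  have h1 : Measurable fun ω (i : S) => Y i ω := measurable_pi_lambda _ fun i => hm i
  exact h1 (meas_set {z | Q (ext0 S z)})

lemma indep_event {S T : Finset ℕ} (hST : Disjoint S T) {Q R : (ℕ → ℕ) → Prop} (hQ : DepOn S Q)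
    (hR : DepOn T R) {Y : ℕ → Ω → ℕ} (hm : ∀ a, Measurable (Y a)) (hi : iIndepFun Y μ) :
    μ {ω | (Q fun a => Y a ω) ∧ R fun a => Y a ω} =
      μ {ω | Q fun a => Y a ω} * μ {ω | R fun a => Y a ω} := by
  have h := (hi.indepFun_finset S T hST hm).measure_inter_preimage_eq_mul _ _
    (meas_set {z | Q (ext0 S z)}) (meas_set {z | R (ext0 T z)})
  rw [← event_eq hQ, ← event_eq hR] at h
  exact h

/-- the values of `f` on `H` are those of `T` -/
def Hit (H : Finset ℕ) (T : ℕ → ℕ) (f : ℕ → ℕ) : Prop := ∀ a ∈ H, f a = T a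

lemma dep_hit (H : Finset ℕ) (T : ℕ → ℕ) : DepOn H fun f => ¬ Hit H T f := by
  intro f g h hf hg
  exact hf fun a ha => (h a ha).trans (hg a ha)

lemma prob_hit {H : Finset ℕ} {T : ℕ → ℕ} {Y : ℕ → Ω → ℕ} (hi : iIndepFun Y μ) {η : ENNReal}
    (hη : ∀ a ∈ H, η ≤ μ {ω | Y a ω = T a}) : η ^ H.card ≤ μ {ω | Hit H T fun a => Y a ω} := by
  have h := hi.measure_inter_preimage_eq_mul H (sets := fun a => {T a})
    (fun a _ => measurableSet_singleton _)
  have e : (⋂ a ∈ H, Y a ⁻¹' {T a}) = {ω | Hit H T fun a => Y a ω} := by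
    ext ω
    simp [Hit]
  rw [e] at h
  rw [h, ← Finset.prod_const]
  exact Finset.prod_le_prod' fun a ha => hη a ha

/-- none of the first `M` groups is hit -/
def Miss (G : ℕ → Finset ℕ × (ℕ → ℕ)) (M : ℕ) (f : ℕ → ℕ) : Prop :=
  ∀ j < M, ¬ Hit (G j).1 (G j).2 f

lemma dep_miss (G : ℕ → Finset ℕ × (ℕ → ℕ)) (M : ℕ) :
    DepOn ((Finset.range M).biUnion fun j => (G j).1) (Miss G M) := by
  intro f g h hf j hj
  exact dep_hit _ _ f g (fun a ha => h a (Finset.mem_biUnion.2 ⟨j, Finset.mem_range.2 hj, ha⟩))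
    (hf j hj)

lemma prob_miss [IsProbabilityMeasure μ] {G : ℕ → Finset ℕ × (ℕ → ℕ)} {Y : ℕ → Ω → ℕ}
    (hm : ∀ a, Measurable (Y a)) (hi : iIndepFun Y μ) {θ : ENNReal} (M : ℕ)
    (hd : ∀ i < M, ∀ j < M, i ≠ j → Disjoint (G i).1 (G j).1)
    (hθ : ∀ j < M, θ ≤ μ {ω | Hit (G j).1 (G j).2 fun a => Y a ω}) :
    μ {ω | Miss G M fun a => Y a ω} ≤ (1 - θ) ^ M := by
  induction M with
  | zero =>
    rw [pow_zero]
    exact prob_le_one
  | succ M ih =>
    have e : {ω | Miss G (M + 1) fun a => Y a ω} =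
        {ω | (Miss G M fun a => Y a ω) ∧ ¬ Hit (G M).1 (G M).2 fun a => Y a ω} := by
      ext ω
      simp only [Miss, Set.mem_ofPred_eq]
      constructor
      · intro h
        exact ⟨fun j hj => h j (by omega), h M (by omega)⟩
      · rintro ⟨h1, h2⟩ j hj
        rcases Nat.lt_succ_iff_lt_or_eq.1 hj with h | rfl
        · exact h1 j h
        · exact h2
    have hdis : Disjoint ((Finset.range M).biUnion fun j => (G j).1) (G M).1 := by
      rw [Finset.disjoint_biUnion_left]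
      intro i hi'
      have := Finset.mem_range.1 hi'
      exact hd i (by omega) M (by omega) (by omega)
    rw [e, indep_event hdis (dep_miss G M) (dep_hit (G M).1 (G M).2) hm hi, pow_succ]
    have h1 : μ {ω | ¬ Hit (G M).1 (G M).2 fun a => Y a ω} ≤ 1 - θ := by
      have h2 : MeasurableSet {ω | ¬ Hit (G M).1 (G M).2 fun a => Y a ω} :=
        meas_event (dep_hit _ _) hm
      have h3 : {ω | ¬ Hit (G M).1 (G M).2 fun a => Y a ω} =
          {ω | Hit (G M).1 (G M).2 fun a => Y a ω}ᶜ := rfl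
      have h4 : MeasurableSet {ω | Hit (G M).1 (G M).2 fun a => Y a ω} := by
        rw [h3] at h2
        exact h2.of_compl
      rw [h3, prob_compl_eq_one_sub h4]
      exact tsub_le_tsub_left (hθ M (by omega)) 1
    exact mul_le_mul' (ih (fun i hi' j hj => hd i (by omega) j (by omega))
      (fun j hj => hθ j (by omega))) h1

/-- **The quantitative bound.** -/
lemma prob_finite [IsProbabilityMeasure μ] {Y : ℕ → Ω → ℕ}
    (hm : ∀ a, Measurable (Y a)) (hi : iIndepFun Y μ) {η : ENNReal} (hη1 : η ≤ 1)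
    {N l k M : ℕ} (hk : 1 ≤ k) (hl : 1 ≤ l) (S : Finset ℕ) (hS : ∀ a ∈ S, a ≤ N)
    (hη : ∀ a ∈ S, ∀ x ≤ 2 * l, η ≤ μ {ω | Y a ω = a + x})
    (hM : 4 * k * M ≤ S.card)
    (h : 32 * k ^ 2 * (2 * (N / l) + 1) < S.card * (S.card - 2)) :
    μ {ω | ∀ n ≤ 2 * N + 2 * l, rep ((fun a => Y a ω) '' (S : Set ℕ)) n < k} ≤
      (1 - η ^ (2 * k)) ^ M := by
  classical
  set r : ℕ := S.card + 2 * k - 2 * k * M with hr
  have hr1 : S.card ≤ 2 * r := by
    have e : 4 * k * M = 2 * (2 * k * M) := by ring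
    omega
  have hr2 : 2 * k * M + r ≤ S.card + 2 * k := by
    have e : 4 * k * M = 2 * (2 * k * M) := by ring
    omega
  have hr3 : 8 * k ^ 2 * (2 * (N / l) + 1) < r * (r - 1) := by
    have h1 : S.card * (S.card - 2) ≤ (2 * r) * (2 * (r - 1)) :=
      Nat.mul_le_mul hr1 (by omega)
    have h2 : (2 * r) * (2 * (r - 1)) = 4 * (r * (r - 1)) := by ring
    have h3 : 32 * k ^ 2 * (2 * (N / l) + 1) = 4 * (8 * k ^ 2 * (2 * (N / l) + 1)) := by ring
    omega
  obtain ⟨G, hG1, hG2⟩ := exists_groups hk hl hr3 M S hS hr2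
  refine (measure_mono ?_).trans (prob_miss hm hi M hG1 (θ := η ^ (2 * k)) fun j hj => ?_)
  · intro ω hω j hj hhit
    obtain ⟨n, hnN, hn⟩ := (hG2 j hj).2.2.2 (fun a => Y a ω) hhit
    have h1 := hω n hnN
    have h2 := rep_mono (Set.image_mono (f := fun a => Y a ω)
      (Finset.coe_subset.2 (hG2 j hj).1)) n
    exact absurd (hn.trans h2) (not_le.2 h1)
  · refine le_trans ?_ (prob_hit (η := η) hi fun a ha => ?_)
    · exact pow_le_pow_right_of_le_one' hη1 (hG2 j hj).2.1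
    · have h1 := (hG2 j hj).2.2.1 a ha
      obtain ⟨x, hx⟩ := Nat.exists_eq_add_of_le h1.1
      rw [hx]
      exact hη a ((hG2 j hj).1 ha) x (by omega)

end Pool.Agent.P8H47.SM
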